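import Pool.Agent.D4Q.Final2

set_option autoImplicit false

/-!
# MP_6f8dd9_co: the conjecture of Barnes and Sloane in dimension four

A lattice of determinant one in four-dimensional space minimizes the second moment of the
Dirichlet-Voronoi cell if and only if it is the polar of a densest packing lattice, if and only if
it is similar to the root lattice `D_4`; the minimum is `13 √2 / 60`.
-/

namespace Pool.Agent.Results.MP_6f8dd9_co.DimensionFour

/-- The second moment `G` of the Dirichlet-Voronoi cell at the origin. -/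
noncomputable def secondMoment (L : Submodule ℤ (EuclideanSpace ℝ (Fin 4))) : ℝ :=
  ∫ x in {x : EuclideanSpace ℝ (Fin 4) | ∀ v ∈ L, ‖x‖ ≤ ‖x - v‖}, ‖x‖ ^ 2

/-- `L` minimizes the second moment over all lattices of determinant one. -/
def IsMinimizer (L : Submodule ℤ (EuclideanSpace ℝ (Fin 4))) : Prop :=
  ∀ (L' : Submodule ℤ (EuclideanSpace ℝ (Fin 4))) [DiscreteTopology L'] [IsZLattice ℝ L'],
    ZLattice.covolume L' = 1 → secondMoment L ≤ secondMoment L'

/-- `M` gives a densest lattice packing of balls (among the lattices of determinant one): every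
lattice of determinant one has a nonzero vector which is not longer than the nonzero vectors of
`M`. -/
def IsDensest (M : Submodule ℤ (EuclideanSpace ℝ (Fin 4))) : Prop :=
  ∀ (M' : Submodule ℤ (EuclideanSpace ℝ (Fin 4))) [DiscreteTopology M'] [IsZLattice ℝ M'],
    ZLattice.covolume M' = 1 → ∃ v ∈ M', v ≠ 0 ∧ ∀ w ∈ M, w ≠ 0 → ‖v‖ ≤ ‖w‖

/-- `L` is the polar of `M`. -/
def IsPolarOf (L M : Submodule ℤ (EuclideanSpace ℝ (Fin 4))) : Prop :=
  ∀ y : EuclideanSpace ℝ (Fin 4), y ∈ L ↔ ∀ v ∈ M, ∃ n : ℤ, inner ℝ y v = (n : ℝ)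

/-- The Gram matrix of the basis `(1,1,0,0), (1,-1,0,0), (0,1,-1,0), (0,0,1,-1)` of the root
lattice `D_4`. -/
def gramD4 : Matrix (Fin 4) (Fin 4) ℝ := !![2, 0, 1, 0; 0, 2, -1, 0; 1, -1, 2, -1; 0, 0, -1, 2]

/-- **The case `d = 4` of the conjecture.** Let `L` be a lattice of determinant one in Euclidean
4-space. The second moment of its Dirichlet-Voronoi cell is at least `13 √2 / 60`. The following
are equivalent: (a) `L` minimizes the second moment among all lattices of determinant one; (b) `L`
is the polar of a lattice `M` of determinant one which gives a densest lattice packing of balls;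
(c) the second moment of `L` is `13 √2 / 60`; (d) `L` has a basis whose Gram matrix is the Gram
matrix of the root lattice `D_4` divided by `√2`. -/
theorem result (L : Submodule ℤ (EuclideanSpace ℝ (Fin 4))) [DiscreteTopology L]
    [IsZLattice ℝ L] (hL : ZLattice.covolume L = 1) :
    13 * Real.sqrt 2 / 60 ≤ secondMoment L ∧
    List.TFAE [
      IsMinimizer L,
      ∃ (M : Submodule ℤ (EuclideanSpace ℝ (Fin 4))) (_ : DiscreteTopology M)
        (_ : IsZLattice ℝ M), ZLattice.covolume M = 1 ∧ IsDensest M ∧ IsPolarOf L M,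
      secondMoment L = 13 * Real.sqrt 2 / 60,
      ∃ b : Fin 4 → EuclideanSpace ℝ (Fin 4), L = Submodule.span ℤ (Set.range b) ∧
        ∀ i j, inner ℝ (b i) (b j) = gramD4 i j / Real.sqrt 2] := by
  obtain ⟨h1, h2, h3⟩ := Pool.Agent.D4Q.final2 L hL
  refine ⟨h1, ?_⟩
  tfae_have 1 ↔ 2 := Pool.Agent.D4Q.final L hL
  tfae_have 1 ↔ 3 := h2
  tfae_have 3 ↔ 4 := h3
  tfae_finish

end Pool.Agent.Results.MP_6f8dd9_co.DimensionFour
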