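import Pool.Agent.H99V.Sum
import Pool.Agent.H99V.Lmx

set_option autoImplicit false

/-!
# MP_6f8dd9_co: the Barnes-Sloane duality within Voronoi's first kind

Q1 with the lattices of Voronoi's first kind in the place of all lattices is false in every
dimension `d > 3`: the minimizers of `G` and the polars of the densest packing lattices are
disjoint sets, and the second one is not empty. This remains true if the polars of all local maxima
of the packing density are admitted.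
-/

namespace Pool.Agent.Results.MP_6f8dd9_co.FirstKindClass

variable {d : ℕ}

/-- The second moment `G` of the Dirichlet-Voronoi cell at the origin. -/
noncomputable def secondMoment (L : Submodule ℤ (EuclideanSpace ℝ (Fin d))) : ℝ :=
  ∫ x in {x : EuclideanSpace ℝ (Fin d) | ∀ v ∈ L, ‖x‖ ≤ ‖x - v‖}, ‖x‖ ^ 2

/-- `L` is the polar of `M`. -/
def IsPolarOf (L M : Submodule ℤ (EuclideanSpace ℝ (Fin d))) : Prop :=
  ∀ y : EuclideanSpace ℝ (Fin d), y ∈ L ↔ ∀ v ∈ M, ∃ k : ℤ, inner ℝ y v = (k : ℝ)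

/-- `v` is a superbase of `L`: `d + 1` vectors with sum `0` which generate `L`. -/
def IsSuperbase (v : Fin (d + 1) → EuclideanSpace ℝ (Fin d))
    (L : Submodule ℤ (EuclideanSpace ℝ (Fin d))) : Prop :=
  ∑ i, v i = 0 ∧ L = Submodule.span ℤ (Set.range v)

/-- `L` is of Voronoi's first kind: it has an obtuse superbase. -/
def FirstKind (L : Submodule ℤ (EuclideanSpace ℝ (Fin d))) : Prop :=
  ∃ v : Fin (d + 1) → EuclideanSpace ℝ (Fin d), IsSuperbase v L ∧
    ∀ i j, i ≠ j → inner ℝ (v i) (v j) ≤ 0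

/-- `L` is similar to the polar of the root lattice `A_d`: it has a superbase with equal inner
products. -/
def IsAStar (L : Submodule ℤ (EuclideanSpace ℝ (Fin d))) : Prop :=
  ∃ v : Fin (d + 1) → EuclideanSpace ℝ (Fin d), ∃ κ : ℝ, IsSuperbase v L ∧
    ∀ i j, i ≠ j → inner ℝ (v i) (v j) = -κ

/-- `L` belongs to `𝓛(1)`: it is a lattice of determinant one. -/
def InL1 (L : Submodule ℤ (EuclideanSpace ℝ (Fin d))) : Prop :=
  ∃ (_ : DiscreteTopology L) (_ : IsZLattice ℝ L), ZLattice.covolume L = 1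

/-- `L` belongs to the class: a lattice of determinant one of Voronoi's first kind. -/
def InClass (L : Submodule ℤ (EuclideanSpace ℝ (Fin d))) : Prop := InL1 L ∧ FirstKind L

/-- Some nonzero vector of `M'` is not longer than any nonzero vector of `M`; for lattices of
determinant one: the ball packing of `M` is at least as dense as the one of `M'`. -/
def MinLe (M' M : Submodule ℤ (EuclideanSpace ℝ (Fin d))) : Prop :=
  ∃ w ∈ M', w ≠ 0 ∧ ∀ u ∈ M, u ≠ 0 → ‖w‖ ≤ ‖u‖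

/-- `L` minimizes `G` in the class. -/
def Minimizer (L : Submodule ℤ (EuclideanSpace ℝ (Fin d))) : Prop :=
  InClass L ∧ ∀ L' : Submodule ℤ (EuclideanSpace ℝ (Fin d)),
    InClass L' → secondMoment L ≤ secondMoment L'

/-- `L` is in the class and is the polar of a lattice `M` of determinant one which packs at least
as densely as every lattice of determinant one whose polar is in the class. -/
def PolarOfDensest (L : Submodule ℤ (EuclideanSpace ℝ (Fin d))) : Prop :=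
  InClass L ∧ ∃ M : Submodule ℤ (EuclideanSpace ℝ (Fin d)), InL1 M ∧ IsPolarOf L M ∧
    ∀ L' M' : Submodule ℤ (EuclideanSpace ℝ (Fin d)),
      InClass L' → InL1 M' → IsPolarOf L' M' → MinLe M' M

/-- `b` is a basis of the lattice `M`. -/
def IsBasis (b : Fin d → EuclideanSpace ℝ (Fin d))
    (M : Submodule ℤ (EuclideanSpace ℝ (Fin d))) : Prop :=
  LinearIndependent ℝ b ∧ M = Submodule.span ℤ (Set.range b)

/-- `M` is a local maximum of the packing density on `𝓛(1)`: for every basis `b` of `M` there is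
`η > 0` such that `M` packs at least as densely as all lattices of determinant one with a basis
`η`-near to `b`. -/
def LocallyDensest (M : Submodule ℤ (EuclideanSpace ℝ (Fin d))) : Prop :=
  ∀ b, IsBasis b M → ∃ η : ℝ, 0 < η ∧
    ∀ (M' : Submodule ℤ (EuclideanSpace ℝ (Fin d))) (b' : Fin d → EuclideanSpace ℝ (Fin d)),
      InL1 M' → IsBasis b' M' → (∀ i, ‖b' i - b i‖ < η) → MinLe M' M

/-- `L` is in the class and is the polar of a local maximum of the packing density on `𝓛(1)`. -/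
def PolarOfLocallyDensest (L : Submodule ℤ (EuclideanSpace ℝ (Fin d))) : Prop :=
  InClass L ∧ ∃ M : Submodule ℤ (EuclideanSpace ℝ (Fin d)),
    InL1 M ∧ IsPolarOf L M ∧ LocallyDensest M

theorem polarOfDensest_iff {m : ℕ} (L : Submodule ℤ (EuclideanSpace ℝ (Fin (m + 1)))) :
    PolarOfDensest L ↔ InL1 L ∧ IsAStar L := by
  constructor
  · rintro ⟨⟨⟨j1, j2, hL⟩, hF⟩, M, ⟨j3, j4, hM⟩, hLM, hD⟩
    refine ⟨⟨j1, j2, hL⟩, Pool.Agent.H99V.aStar_of_densest hL hF hLM ?_⟩
    intro L' M' i1 i2 i3 i4 h1 h2 h3 h4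
    exact hD L' M' ⟨⟨i1, i2, h1⟩, h3⟩ ⟨i3, i4, h2⟩ h4
  · rintro ⟨⟨j1, j2, hL⟩, hA⟩
    obtain ⟨κ, hκ, hf, hdet⟩ := Pool.Agent.H99V.aStar_form hL hA
    obtain ⟨M, hM, hLM⟩ := Pool.Agent.D4Q.exists_dual hf
    obtain ⟨j3, j4⟩ := Pool.Agent.D4Q.hasForm_lattice hM
    refine ⟨⟨⟨j1, j2, hL⟩, Pool.Agent.H99V.fk_of_aStar hL hA⟩, M,
      ⟨j3, j4, Pool.Agent.H99V.cov_dual hL hLM⟩, hLM, ?_⟩
    rintro L' M' ⟨⟨i1, i2, hL'⟩, hF⟩ ⟨i3, i4, hM'⟩ hLM'
    exact (Pool.Agent.H99V.cls hL hA hLM hL' hF hLM').1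

theorem polarOfLocallyDensest_iff {m : ℕ} (L : Submodule ℤ (EuclideanSpace ℝ (Fin (m + 1)))) :
    PolarOfLocallyDensest L ↔ InL1 L ∧ IsAStar L := by
  constructor
  · rintro ⟨⟨⟨j1, j2, hL⟩, hF⟩, M, ⟨j3, j4, hM⟩, hLM, hD⟩
    obtain ⟨b, hb⟩ := Pool.Agent.H99V.exists_basis M
    obtain ⟨η, hη, h⟩ := hD b hb
    refine ⟨⟨j1, j2, hL⟩, Pool.Agent.H99V.aStar_of_locmax hL hF hLM hb hη ?_⟩
    intro M' i1 i2 b' hb' hn hM'
    exact h M' b' ⟨i1, i2, hM'⟩ hb' hn
  · rintro ⟨⟨j1, j2, hL⟩, hA⟩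
    obtain ⟨κ, hκ, hf, hdet⟩ := Pool.Agent.H99V.aStar_form hL hA
    obtain ⟨M, hM, hLM⟩ := Pool.Agent.D4Q.exists_dual hf
    obtain ⟨j3, j4⟩ := Pool.Agent.D4Q.hasForm_lattice hM
    refine ⟨⟨⟨j1, j2, hL⟩, Pool.Agent.H99V.fk_of_aStar hL hA⟩, M,
      ⟨j3, j4, Pool.Agent.H99V.cov_dual hL hLM⟩, hLM, ?_⟩
    intro b hb
    obtain ⟨η, hη, h⟩ := Pool.Agent.H99V.local_max hL hA hLM hb
    refine ⟨η, hη, ?_⟩
    rintro M' b' ⟨i3, i4, hM'⟩ hb' hn
    exact (h M' b' hb' hn hM').1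

/-- **Q1 within Voronoi's first kind.** In every dimension `d ≥ 1` the following sets of lattices of
the class are equal and not empty: the polars of the densest packing lattices (among those whose
polars are in the class), the polars of the local maxima of the packing density (among all
lattices), the lattices of determinant one similar to the polar of `A_d`. If `d ≥ 4`, then none of
these lattices minimizes `G` in the class; for all large `d` there is always a lattice in the class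
with less than `93 / 100` of its second moment. -/
theorem result :
    (∀ d : ℕ, 1 ≤ d →
      (∃ L : Submodule ℤ (EuclideanSpace ℝ (Fin d)), PolarOfDensest L) ∧
      ∀ L : Submodule ℤ (EuclideanSpace ℝ (Fin d)),
        (PolarOfDensest L ↔ InL1 L ∧ IsAStar L) ∧
        (PolarOfLocallyDensest L ↔ InL1 L ∧ IsAStar L)) ∧
    (∀ d : ℕ, 4 ≤ d → ∀ L : Submodule ℤ (EuclideanSpace ℝ (Fin d)),
      PolarOfLocallyDensest L → ¬ Minimizer L) ∧
    ∃ d₀ : ℕ, ∀ d : ℕ, d₀ ≤ d → ∀ L : Submodule ℤ (EuclideanSpace ℝ (Fin d)),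
      PolarOfLocallyDensest L → ∃ L' : Submodule ℤ (EuclideanSpace ℝ (Fin d)),
        InClass L' ∧ secondMoment L' < 93 / 100 * secondMoment L := by
  refine ⟨?_, ?_, ?_⟩
  · intro d hd
    obtain ⟨m, rfl⟩ : ∃ m, d = m + 1 := ⟨d - 1, by omega⟩
    obtain ⟨L, M, j1, j2, j3, j4, h1, h2, h3, h4⟩ := Pool.Agent.H99V.exists_aStar' m
    exact ⟨⟨L, (polarOfDensest_iff L).2 ⟨⟨j1, j2, h1⟩, h3⟩⟩,
      fun L => ⟨polarOfDensest_iff L, polarOfLocallyDensest_iff L⟩⟩
  · intro d hd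
    obtain ⟨m, rfl⟩ : ∃ m, d = m + 1 := ⟨d - 1, by omega⟩
    intro L hL hmin
    obtain ⟨⟨j1, j2, h1⟩, h2⟩ := (polarOfLocallyDensest_iff L).1 hL
    obtain ⟨L', i1, i2, h3, h4, h5⟩ := Pool.Agent.H99V.not_min_class (by omega) h1 h2
    exact absurd (hmin.2 L' ⟨⟨i1, i2, h3⟩, h4⟩) (not_le.2 h5)
  · obtain ⟨m0, h0⟩ := Pool.Agent.H99V.loss
    refine ⟨m0 + 1, fun d hd => ?_⟩
    obtain ⟨m, rfl⟩ : ∃ m, d = m + 1 := ⟨d - 1, by omega⟩
    intro L hL
    obtain ⟨⟨j1, j2, h1⟩, h2⟩ := (polarOfLocallyDensest_iff L).1 hL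
    obtain ⟨L', i1, i2, h3, h4, h5⟩ := h0 m (by omega) L j1 j2 h1 h2
    exact ⟨L', ⟨⟨i1, i2, h3⟩, h4⟩, h5⟩

end Pool.Agent.Results.MP_6f8dd9_co.FirstKindClass
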