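import Pool.Agent.H99G.All

set_option autoImplicit false

/-!
# MP_6f8dd9_co: for `4 ≤ d ≤ 8` the polar of the densest lattice is a strict local minimum of `G`

By Korkine, Zolotareff and Blichfeldt the root lattices `D4, D5, E6, E7, E8` give densest lattice
packings (not used here). It is shown that the polar of each of them is a strict local minimum of
`G` on the space of all lattices of determinant one. Part (1) is the criterion behind this.
-/

namespace Pool.Agent.Results.MP_6f8dd9_co.FourToEight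

variable {d : ℕ}

/-- The second moment `G` of the Dirichlet-Voronoi cell at the origin. -/
noncomputable def secondMoment (L : Submodule ℤ (EuclideanSpace ℝ (Fin d))) : ℝ :=
  ∫ x in {x : EuclideanSpace ℝ (Fin d) | ∀ v ∈ L, ‖x‖ ≤ ‖x - v‖}, ‖x‖ ^ 2

/-- `L` is the polar of `M`. -/
def IsPolarOf (L M : Submodule ℤ (EuclideanSpace ℝ (Fin d))) : Prop :=
  ∀ y : EuclideanSpace ℝ (Fin d), y ∈ L ↔ ∀ v ∈ M, ∃ k : ℤ, inner ℝ y v = (k : ℝ)

/-- `L` belongs to `𝓛(1)`: it is a lattice of determinant one. -/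
def InL1 (L : Submodule ℤ (EuclideanSpace ℝ (Fin d))) : Prop :=
  ∃ (_ : DiscreteTopology L) (_ : IsZLattice ℝ L), ZLattice.covolume L = 1

/-- `b` is a basis of the lattice `L`. -/
def IsBasis (b : Fin d → EuclideanSpace ℝ (Fin d))
    (L : Submodule ℤ (EuclideanSpace ℝ (Fin d))) : Prop :=
  LinearIndependent ℝ b ∧ L = Submodule.span ℤ (Set.range b)

/-- `M` has a basis whose Gram matrix is a multiple of the Cartan matrix `C`: it is similar to the
root lattice of `C`. -/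
def Similar (M : Submodule ℤ (EuclideanSpace ℝ (Fin d))) (C : Matrix (Fin d) (Fin d) ℤ) : Prop :=
  ∃ (a : Fin d → EuclideanSpace ℝ (Fin d)) (κ : ℝ), IsBasis a M ∧
    ∀ i j, inner ℝ (a i) (a j) = κ * (C i j : ℝ)

/-- `L` is a strict local minimum of `G` on `𝓛(1)`: for every basis `b` of `L` there is `η > 0` such
that every lattice `L'` of determinant one with a basis `b'` which is `η`-near to `b` has a larger
second moment, or `b'` has the same Gram matrix as `b` (so that `L'` is isometric to `L`). -/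
def StrictLocalMin (L : Submodule ℤ (EuclideanSpace ℝ (Fin d))) : Prop :=
  ∀ b : Fin d → EuclideanSpace ℝ (Fin d), IsBasis b L → ∃ η : ℝ, 0 < η ∧
    ∀ (L' : Submodule ℤ (EuclideanSpace ℝ (Fin d))) (b' : Fin d → EuclideanSpace ℝ (Fin d)),
      InL1 L' → IsBasis b' L' → (∀ i, ‖b' i - b i‖ < η) →
      (∀ i j, inner ℝ (b' i) (b' j) = (inner ℝ (b i) (b j) : ℝ)) ∨
        secondMoment L < secondMoment L'

/-- The orthogonal matrix `g` is an automorphism of `L`. -/
def IsAutomorphism (g : Matrix (Fin d) (Fin d) ℝ)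
    (L : Submodule ℤ (EuclideanSpace ℝ (Fin d))) : Prop :=
  g.transpose * g = 1 ∧ g * g.transpose = 1 ∧
    ∀ x : Fin d → ℝ, WithLp.toLp 2 (g.mulVec x) ∈ L ↔ WithLp.toLp 2 x ∈ L

/-- The automorphisms of `L` act irreducibly on the symmetric matrices of trace zero. -/
def Irreducible (L : Submodule ℤ (EuclideanSpace ℝ (Fin d))) : Prop :=
  ∀ U : Submodule ℝ (Matrix (Fin d) (Fin d) ℝ),
    (∀ B ∈ U, B.transpose = B ∧ B.trace = 0) →
    (∀ g, IsAutomorphism g L → ∀ B ∈ U, g * B * g.transpose ∈ U) →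
    U = ⊥ ∨ ∀ B : Matrix (Fin d) (Fin d) ℝ, B.transpose = B → B.trace = 0 → B ∈ U

/-- The square of the covering radius is at most half the minimal squared length. -/
def CoveringCondition (L : Submodule ℤ (EuclideanSpace ℝ (Fin d))) : Prop :=
  ∀ y : EuclideanSpace ℝ (Fin d), ∃ v ∈ L, ∀ w ∈ L, w ≠ 0 → 2 * ‖y - v‖ ^ 2 ≤ ‖w‖ ^ 2

/-- `G(L)` is smaller than `ν d² / (2 (d + 1) (d + 2))`, where `ν` is at most the minimal squared
length. -/
def MomentCondition (L : Submodule ℤ (EuclideanSpace ℝ (Fin d))) : Prop :=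
  ∃ ν : ℝ, (∀ w ∈ L, w ≠ 0 → ν ≤ ‖w‖ ^ 2) ∧
    secondMoment L < ν * d ^ 2 / (2 * (d + 1) * (d + 2))

/-- The polar of every lattice of determinant one similar to the root lattice of `C` is a strict
local minimum, and there is such a lattice. -/
def PolarsAreLocalMinima (C : Matrix (Fin d) (Fin d) ℤ) : Prop :=
  (∃ M : Submodule ℤ (EuclideanSpace ℝ (Fin d)), InL1 M ∧ Similar M C) ∧
  ∀ M L : Submodule ℤ (EuclideanSpace ℝ (Fin d)), InL1 M → Similar M C → IsPolarOf L M →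
    InL1 L ∧ StrictLocalMin L

theorem polars {m : ℕ} {C : Matrix (Fin (m + 1)) (Fin (m + 1)) ℤ}
    {X : AddSubgroup (Fin (m + 1) → ℝ)}
    (hX : ∃ c : ℝ, 0 < c ∧ Pool.Agent.D4Q.HasForm (Pool.Agent.H99G.sub X)
      (c • (C.map (fun z : ℤ => (z : ℝ)))⁻¹)) {μ : ℝ} (hG : Pool.Agent.H99G.Good X μ)
    (hP : Pool.Agent.H99G.Pos X μ) : PolarsAreLocalMinima C := by
  obtain ⟨c, hc, hX⟩ := hX
  constructor
  · obtain ⟨M, i1, i2, a, κ, h1, h2, h3, h4⟩ := Pool.Agent.H99G.exists_M hc hX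
    exact ⟨M, ⟨i1, i2, h1⟩, a, κ, ⟨h2, h3⟩, h4⟩
  · rintro M L ⟨i1, i2, hM⟩ ⟨a, κ, ⟨h2, h3⟩, h4⟩ hLM
    obtain ⟨j1, j2, hL⟩ := Pool.Agent.H99G.polar_InL1 hM hLM
    refine ⟨⟨j1, j2, hL⟩, ?_⟩
    rintro b ⟨hb, hE⟩
    obtain ⟨η, hη, h⟩ := Pool.Agent.H99G.polar_lm hc hX hG hP ⟨a, κ, h2, h3, h4⟩ hLM hb hE
    refine ⟨η, hη, ?_⟩
    rintro L' b' ⟨k1, k2, hL'⟩ ⟨hb', hE'⟩ hn
    exact h L' b' (by rw [hL', hL]) hb' hE' hn

/-- **The polars of the densest lattices are strict local minima of `G` for `4 ≤ d ≤ 8`.**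
(1) A criterion: if `d ≥ 3`, `L` has determinant one, the automorphisms of `L` act irreducibly on
the symmetric matrices of trace zero, and `L` satisfies the covering condition or the moment
condition, then `L` is a strict local minimum of `G`. (2) The polar of every lattice of determinant
one similar to `D4`, `D5`, `E6`, `E7` or `E8` is a strict local minimum of `G`. -/
theorem result :
    (∀ d : ℕ, 3 ≤ d → ∀ L : Submodule ℤ (EuclideanSpace ℝ (Fin d)), InL1 L → Irreducible L →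
      CoveringCondition L ∨ MomentCondition L → StrictLocalMin L) ∧
    PolarsAreLocalMinima (CartanMatrix.D 4) ∧
    PolarsAreLocalMinima (CartanMatrix.D 5) ∧
    PolarsAreLocalMinima CartanMatrix.E₆ ∧
    PolarsAreLocalMinima CartanMatrix.E₇ ∧
    PolarsAreLocalMinima CartanMatrix.E₈ := by
  refine ⟨?_, polars (m := 3) Pool.Agent.H99G.D4_form Pool.Agent.H99G.D4_good
      Pool.Agent.H99G.D4_pos,
    polars (m := 4) Pool.Agent.H99G.D5s_form Pool.Agent.H99G.D5s_good Pool.Agent.H99G.D5s_pos,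
    polars (m := 5) Pool.Agent.H99G.E6s_form Pool.Agent.H99G.E6s_good Pool.Agent.H99G.E6s_pos,
    polars (m := 6) Pool.Agent.H99G.E7s_form Pool.Agent.H99G.E7s_good Pool.Agent.H99G.E7s_pos,
    polars (m := 7) Pool.Agent.H99G.E8_form Pool.Agent.H99G.E8_good Pool.Agent.H99G.E8_pos⟩
  rintro d hd L ⟨i1, i2, hL⟩ hI hcr b ⟨hb, hE⟩
  obtain ⟨m, rfl⟩ : ∃ m, d = m + 1 := ⟨d - 1, by omega⟩
  have hI' : Pool.Agent.H99G.Irr (Pool.Agent.H99G.gr L) := fun U h1 h2 => hI U h1 h2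
  have hcr' : (∀ y : EuclideanSpace ℝ (Fin (m + 1)), ∃ v ∈ L, ∀ w ∈ L, w ≠ 0 →
        2 * ‖y - v‖ ^ 2 ≤ ‖w‖ ^ 2) ∨
      ∃ ν : ℝ, 0 ≤ ν ∧ (∀ w ∈ L, w ≠ 0 → ν ≤ ‖w‖ ^ 2) ∧
        2 * ((m : ℝ) + 2) * (m + 3) * (∫ x in {x : EuclideanSpace ℝ (Fin (m + 1)) |
          ∀ v ∈ L, ‖x‖ ≤ ‖x - v‖}, ‖x‖ ^ 2) < ν * (m + 1) ^ 2 * ZLattice.covolume L := by
    rcases hcr with h | ⟨ν, h1, h2⟩
    · exact Or.inl h
    · right
      have h3 : secondMoment L < ν * ((m : ℝ) + 1) ^ 2 / (2 * ((m : ℝ) + 2) * (m + 3)) := by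
        refine lt_of_lt_of_eq h2 ?_
        push_cast
        ring
      have h0 : 0 ≤ secondMoment L := MeasureTheory.integral_nonneg fun x => sq_nonneg _
      rw [lt_div_iff₀ (by positivity)] at h3
      refine ⟨ν, ?_, h1, ?_⟩
      · by_contra hneg
        push Not at hneg
        have h4 : ν * ((m : ℝ) + 1) ^ 2 < 0 := mul_neg_of_neg_of_pos hneg (by positivity)
        have h5 : 0 ≤ secondMoment L * (2 * ((m : ℝ) + 2) * (m + 3)) := by positivity
        linarith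
      · rw [hL, mul_one]
        refine lt_of_eq_of_lt ?_ h3
        unfold secondMoment
        ring
  obtain ⟨η, hη, h⟩ := Pool.Agent.H99G.criterion (by omega) hI' hcr' hb hE
  refine ⟨η, hη, ?_⟩
  rintro L' b' ⟨k1, k2, hL'⟩ ⟨hb', hE'⟩ hn
  exact h L' b' (by rw [hL', hL]) hb' hE' hn

end Pool.Agent.Results.MP_6f8dd9_co.FourToEight
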