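import Pool.Agent.H99V.Exi

set_option autoImplicit false

/-!
# MP_6f8dd9_co: the local form of the Barnes-Sloane duality fails in every dimension `d ≥ 6`

The root lattice `A_d` is a strict local maximum of the density of lattice packings, but for
`d ≥ 6` its polar is not a local minimum of the second moment `G`.
-/

namespace Pool.Agent.Results.MP_6f8dd9_co.LocalDuality

variable {d : ℕ}

/-- The second moment `G` of the Dirichlet-Voronoi cell at the origin. -/
noncomputable def secondMoment (L : Submodule ℤ (EuclideanSpace ℝ (Fin d))) : ℝ :=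
  ∫ x in {x : EuclideanSpace ℝ (Fin d) | ∀ v ∈ L, ‖x‖ ≤ ‖x - v‖}, ‖x‖ ^ 2

/-- `L` is the polar of `M`. -/
def IsPolarOf (L M : Submodule ℤ (EuclideanSpace ℝ (Fin d))) : Prop :=
  ∀ y : EuclideanSpace ℝ (Fin d), y ∈ L ↔ ∀ v ∈ M, ∃ k : ℤ, inner ℝ y v = (k : ℝ)

/-- `b` is a basis of the lattice `L`. -/
def IsBasis (b : Fin d → EuclideanSpace ℝ (Fin d))
    (L : Submodule ℤ (EuclideanSpace ℝ (Fin d))) : Prop :=
  LinearIndependent ℝ b ∧ L = Submodule.span ℤ (Set.range b)

/-- `v` is a superbase of `L`: `d + 1` vectors with sum `0` which generate `L`. -/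
def IsSuperbase (v : Fin (d + 1) → EuclideanSpace ℝ (Fin d))
    (L : Submodule ℤ (EuclideanSpace ℝ (Fin d))) : Prop :=
  ∑ i, v i = 0 ∧ L = Submodule.span ℤ (Set.range v)

/-- `L` is of Voronoi's first kind: it has an obtuse superbase. -/
def FirstKind (L : Submodule ℤ (EuclideanSpace ℝ (Fin d))) : Prop :=
  ∃ v : Fin (d + 1) → EuclideanSpace ℝ (Fin d), IsSuperbase v L ∧
    ∀ i j, i ≠ j → inner ℝ (v i) (v j) ≤ 0

/-- `L` is similar to the polar of the root lattice `A_d`: it has a superbase with equal inner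
products. -/
def IsAStar (L : Submodule ℤ (EuclideanSpace ℝ (Fin d))) : Prop :=
  ∃ v : Fin (d + 1) → EuclideanSpace ℝ (Fin d), ∃ κ : ℝ, IsSuperbase v L ∧
    ∀ i j, i ≠ j → inner ℝ (v i) (v j) = -κ

/-- `L` belongs to `𝓛(1)`: it is a lattice of determinant one. -/
def InL1 (L : Submodule ℤ (EuclideanSpace ℝ (Fin d))) : Prop :=
  ∃ (_ : DiscreteTopology L) (_ : IsZLattice ℝ L), ZLattice.covolume L = 1

/-- Some nonzero vector of `M'` is not longer than any nonzero vector of `M`; for lattices of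
determinant one: the ball packing of `M` is at least as dense as the one of `M'`. -/
def MinLe (M' M : Submodule ℤ (EuclideanSpace ℝ (Fin d))) : Prop :=
  ∃ w ∈ M', w ≠ 0 ∧ ∀ u ∈ M, u ≠ 0 → ‖w‖ ≤ ‖u‖

/-- `M'` and `M` have bases with the same Gram matrix. -/
def Isometric (M' M : Submodule ℤ (EuclideanSpace ℝ (Fin d))) : Prop :=
  ∃ b b' : Fin d → EuclideanSpace ℝ (Fin d), IsBasis b M' ∧ IsBasis b' M ∧
    ∀ i j, (inner ℝ (b i) (b j) : ℝ) = inner ℝ (b' i) (b' j)

/-- `M` packs at least as densely as `M'`, with equality only if `M'` is isometric to `M`. -/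
def Beats (M M' : Submodule ℤ (EuclideanSpace ℝ (Fin d))) : Prop :=
  MinLe M' M ∧ (MinLe M M' → Isometric M' M)

/-- `b'` is `η`-near to `b`. -/
def Near (η : ℝ) (b b' : Fin d → EuclideanSpace ℝ (Fin d)) : Prop := ∀ i, ‖b' i - b i‖ < η

/-- `M` is a strict (up to isometry) local maximum of the packing density on `𝓛(1)`: for every
basis `b` of `M` there is `η > 0` such that `M` beats all lattices of determinant one with a basis
`η`-near to `b`. -/
def LocallyDensest (M : Submodule ℤ (EuclideanSpace ℝ (Fin d))) : Prop :=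
  ∀ b, IsBasis b M → ∃ η : ℝ, 0 < η ∧
    ∀ (M' : Submodule ℤ (EuclideanSpace ℝ (Fin d))) (b' : Fin d → EuclideanSpace ℝ (Fin d)),
      InL1 M' → IsBasis b' M' → Near η b b' → Beats M M'

/-- `L` is not a local minimum of the second moment on `𝓛(1)`, not even among the lattices of
Voronoi's first kind: for every basis `b` of `L` and every `η > 0` there is a lattice of
determinant one, of Voronoi's first kind, with a basis `η`-near to `b` and with a smaller second
moment. -/
def NotLocallyMinimal (L : Submodule ℤ (EuclideanSpace ℝ (Fin d))) : Prop :=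
  ∀ b, IsBasis b L → ∀ η : ℝ, 0 < η →
    ∃ (L' : Submodule ℤ (EuclideanSpace ℝ (Fin d))) (b' : Fin d → EuclideanSpace ℝ (Fin d)),
      InL1 L' ∧ FirstKind L' ∧ IsBasis b' L' ∧ Near η b b' ∧ secondMoment L' < secondMoment L

/-- **The local form of the duality fails for `d ≥ 6`.** In every dimension `d ≥ 1` there are
lattices `L` of determinant one similar to the polar of `A_d`. Let `L` be one of them and let `L`
be the polar of `M`. Then `M` is a strict local maximum of the packing density; but if `d ≥ 6`,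
then `L` is not a local minimum of the second moment. -/
theorem result (hd : 1 ≤ d) :
    (∃ L M : Submodule ℤ (EuclideanSpace ℝ (Fin d)),
      InL1 L ∧ InL1 M ∧ IsAStar L ∧ IsPolarOf L M) ∧
    ∀ L M : Submodule ℤ (EuclideanSpace ℝ (Fin d)),
      InL1 L → InL1 M → IsAStar L → IsPolarOf L M →
        LocallyDensest M ∧ (6 ≤ d → NotLocallyMinimal L) := by
  obtain ⟨m, rfl⟩ : ∃ m, d = m + 1 := ⟨d - 1, by omega⟩
  refine ⟨?_, ?_⟩
  · obtain ⟨L, M, j1, j2, j3, j4, h1, h2, h3, h4⟩ := Pool.Agent.H99V.exists_aStar' m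
    exact ⟨L, M, ⟨j1, j2, h1⟩, ⟨j3, j4, h2⟩, h3, h4⟩
  · rintro L M ⟨j1, j2, hL⟩ ⟨j3, j4, hM⟩ hA hLM
    refine ⟨?_, ?_⟩
    · intro b hb
      obtain ⟨η, hη, h⟩ := Pool.Agent.H99V.local_max hL hA hLM hb
      refine ⟨η, hη, ?_⟩
      rintro M' b' ⟨i3, i4, hM'⟩ hb' hn
      exact h M' b' hb' hn hM'
    · intro hd b hb η hη
      obtain ⟨L', i1, i2, b', h1, h2, h3, h4, h5⟩ :=
        Pool.Agent.H99V.not_min (by omega) hL hA hb hη
      exact ⟨L', b', ⟨i1, i2, h3⟩, h4, h1, h2, h5⟩

end Pool.Agent.Results.MP_6f8dd9_co.LocalDuality
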